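import Pool.Agent.Helper66_KF.Stmts
import Pool.Agent.Helper50_PP.Dic
import Pool.Agent.Helper20_PP.Nls
import Pool.Agent.Helper20_PP.Ibr

/-!
# AWC, part KF, module FM4: the first main theorem for Klein four defect groups
-/

open scoped BigOperators Pointwise

noncomputable section

namespace Pool.Agent.PP.KF.H55

open Pool.Agent.Helper51_AWC Pool.Agent.Helper79_WRA Pool.Agent.PP

attribute [local instance] Ideal.Quotient.field

section group

variable {K : Type} [Group K]

theorem v4_card {Q : Type} [Group Q] (h : V4 Q) : Nat.card Q ≤ 4 := by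
  obtain ⟨j, hj⟩ := h
  have h1 := Nat.card_le_card_of_injective j hj
  have h2 : Nat.card (Multiplicative (ZMod 2) × Multiplicative (ZMod 2)) = 4 := by
    rw [Nat.card_prod, Nat.card_congr Multiplicative.toAdd, Nat.card_zmod]
  rwa [h2] at h1

theorem subCl_v4 : DF.SubCl V4 := by
  intro Q R _ _ j hj h
  obtain ⟨k, hk⟩ := h
  exact ⟨k.comp j, hk.comp hj⟩

theorem isP4 {V : Subgroup K} (hV : Nat.card V = 4) : IsPGroup 2 V :=
  IsPGroup.of_card (n := 2) (by rw [hV]; rfl)

theorem card_conj4 (g : K) (P : Subgroup K) : Nat.card (conjS g P) = Nat.card P :=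
  (Nat.card_congr (P.equivMapOfInjective (MulAut.conj g).toMonoidHom
    (MulAut.conj g).injective).toEquiv).symm

/-- two subgroups of order four of the centraliser of `y` are conjugate there if `8` does not
divide its order -/
theorem conj_four [Finite K] {y : K}
    (h8 : ¬ 8 ∣ Nat.card (Subgroup.centralizer ({y} : Set K))) {V W : Subgroup K}
    (hV : V ≤ Subgroup.centralizer ({y} : Set K)) (hW : W ≤ Subgroup.centralizer ({y} : Set K))
    (cV : Nat.card V = 4) (cW : Nat.card W = 4) :
    ∃ c ∈ Subgroup.centralizer ({y} : Set K), W = conjS c V := by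
  have hfact : Fact (Nat.Prime 2) := ⟨Nat.prime_two⟩
  set C := Subgroup.centralizer ({y} : Set K) with hC
  have key : ∀ U : Subgroup K, U ≤ C → Nat.card U = 4 →
      IsPGroup 2 (U.subgroupOf C) ∧ ¬ 2 ∣ (U.subgroupOf C).index := by
    intro U hU cU
    have h1 : Nat.card (U.subgroupOf C) = 4 := by
      rw [Nat.card_congr (Subgroup.subgroupOfEquivOfLe hU).toEquiv, cU]
    refine ⟨isP4 h1, fun h => h8 ?_⟩
    obtain ⟨k, hk⟩ := h
    have h2 := Subgroup.card_mul_index (U.subgroupOf C)
    rw [h1, hk] at h2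
    exact ⟨k, by rw [← h2]; ring⟩
  let S : Sylow 2 C := (key V hV cV).1.toSylow (key V hV cV).2
  let T : Sylow 2 C := (key W hW cW).1.toSylow (key W hW cW).2
  obtain ⟨c, hc⟩ := MulAction.exists_smul_eq C S T
  refine ⟨c, c.2, ?_⟩
  have h1 : ((c • S : Sylow 2 C) : Subgroup C) = W.subgroupOf C := by
    rw [hc]
    rfl
  have h2 : ((c • S : Sylow 2 C) : Subgroup C) = MulAut.conj c • (V.subgroupOf C) := rfl
  rw [h2] at h1
  ext x
  rw [mem_conjS]
  constructor
  · intro hx
    have h3 : (⟨x, hW hx⟩ : C) ∈ W.subgroupOf C := hx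
    rw [← h1, Subgroup.mem_pointwise_smul_iff_inv_smul_mem] at h3
    have h4 : ((MulAut.conj c)⁻¹ • (⟨x, hW hx⟩ : C) : C) = c⁻¹ * ⟨x, hW hx⟩ * c := by
      rw [← map_inv]
      change c⁻¹ * _ * c⁻¹⁻¹ = _
      rw [inv_inv]
    rw [h4] at h3
    exact h3
  · intro hx
    have h3 : (c⁻¹ * (⟨c * ((c : K)⁻¹ * x * c) * (c : K)⁻¹, by
      exact mul_mem (mul_mem c.2 (hV hx)) (inv_mem c.2)⟩ : C) * c) ∈ V.subgroupOf C := by
      change (c : K)⁻¹ * (c * ((c : K)⁻¹ * x * c) * (c : K)⁻¹) * c ∈ V
      have h5 : (c : K)⁻¹ * (c * ((c : K)⁻¹ * x * c) * (c : K)⁻¹) * c = (c : K)⁻¹ * x * c := by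
        group
      rw [h5]
      exact hx
    have h4 : (⟨c * ((c : K)⁻¹ * x * c) * (c : K)⁻¹, by
      exact mul_mem (mul_mem c.2 (hV hx)) (inv_mem c.2)⟩ : C) ∈
        MulAut.conj c • (V.subgroupOf C) := by
      rw [Subgroup.mem_pointwise_smul_iff_inv_smul_mem, ← map_inv]
      change c⁻¹ * _ * c⁻¹⁻¹ ∈ _
      rw [inv_inv]
      exact h3
    rw [h1] at h4
    have h6 : (c : K) * ((c : K)⁻¹ * x * c) * (c : K)⁻¹ ∈ W := h4
    have h7 : (c : K) * ((c : K)⁻¹ * x * c) * (c : K)⁻¹ = x := by group
    rwa [h7] at h6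

/-- the centralisers of the elements at which `e` does not vanish -/
theorem bd8 [Finite K] {F : Type} [Field F] {e : K → F} (h : DF.DfE 2 V4 e ⊤) : Bd8 e := by
  intro g hg h8
  have hfact : Fact (Nat.Prime 2) := ⟨Nat.prime_two⟩
  set C := Subgroup.centralizer ({g} : Set K) with hC
  obtain ⟨S, hS⟩ := Sylow.exists_subgroup_card_pow_prime (G := C) 2 (n := 3) (by
    rw [show (2 : ℕ) ^ 3 = 8 from rfl]
    exact h8)
  have h1 : Nat.card (S.map C.subtype) = 8 := by
    rw [← Nat.card_congr (S.equivMapOfInjective C.subtype C.subtype_injective).toEquiv, hS]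
    rfl
  have h2 := v4_card (h (S.map C.subtype) le_top (IsPGroup.of_card (n := 3) (by rw [h1]; rfl))
    ⟨g, by
      rw [Subgroup.mem_centralizer_iff]
      rintro _ ⟨s, hs, rfl⟩
      exact (Subgroup.mem_centralizer_singleton_iff.1 s.2), hg⟩)
  rw [h1] at h2
  omega

/-- normaliser growth -/
theorem eight_of_norm [Finite K] {V : Subgroup K} (cV : Nat.card V = 4)
    {y : Subgroup.normalizer (V : Set K)} (hV : V ≤ Subgroup.centralizer ({(y : K)} : Set K))
    (h8 : 8 ∣ Nat.card (Subgroup.centralizer ({(y : K)} : Set K))) :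
    8 ∣ Nat.card (Subgroup.centralizer ({y} : Set (Subgroup.normalizer (V : Set K)))) := by
  have hfact : Fact (Nat.Prime 2) := ⟨Nat.prime_two⟩
  set C := Subgroup.centralizer ({(y : K)} : Set K) with hC
  have h1 : Nat.card (V.subgroupOf C) = 2 ^ 2 := by
    rw [Nat.card_congr (Subgroup.subgroupOfEquivOfLe hV).toEquiv, cV]
    rfl
  have h2 := Sylow.prime_pow_dvd_card_normalizer (p := 2) (n := 2) (G := C) (by
    rw [show (2 : ℕ) ^ (2 + 1) = 8 from rfl]
    exact h8) h1
  refine h2.trans ?_
  have hn : ∀ t : Subgroup.normalizer ((V.subgroupOf C : Subgroup C) : Set C),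
      ((t : C) : K) ∈ Subgroup.normalizer (V : Set K) := by
    intro t
    rw [Subgroup.mem_normalizer_iff]
    intro v
    have h3 := Subgroup.mem_normalizer_iff.1 t.2
    constructor
    · intro hv
      exact (h3 ⟨v, hV hv⟩).1 hv
    · intro hv
      have h4 : ((t : C) : K)⁻¹ * (((t : C) : K) * v * ((t : C) : K)⁻¹) * ((t : C) : K) = v := by
        group
      have h5 : v ∈ C := by
        rw [← h4]
        exact mul_mem (mul_mem (inv_mem (t : C).2) (hV hv)) (t : C).2
      exact (h3 ⟨v, h5⟩).2 hv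
  let φ : Subgroup.normalizer ((V.subgroupOf C : Subgroup C) : Set C) →*
      Subgroup.centralizer ({y} : Set (Subgroup.normalizer (V : Set K))) :=
    { toFun := fun t => ⟨⟨((t : C) : K), hn t⟩, by
        rw [Subgroup.mem_centralizer_singleton_iff]
        apply Subtype.ext
        exact Subgroup.mem_centralizer_singleton_iff.1 (t : C).2⟩
      map_one' := rfl
      map_mul' := fun _ _ => rfl }
  refine Subgroup.card_dvd_of_injective φ ?_
  intro a b hab
  apply Subtype.ext
  apply Subtype.ext
  exact congrArg (fun z => ((z : Subgroup.centralizer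
    ({y} : Set (Subgroup.normalizer (V : Set K)))) : Subgroup.normalizer (V : Set K)).1) hab

end group

section supp

variable {F K : Type} [Field F] [Group K] [Finite K]

/-- a central idempotent is supported on the centraliser of a normal `ℓ`-subgroup -/
theorem br_idem {ℓ : ℕ} (hF : GoodF ℓ F) {R : Subgroup K} (hn : R.Normal) (hR : IsPGroup ℓ R)
    {g : K → F} (hg : IsIdem g) : br R g = g := by
  have hcl : IsCl (br R g) := by
    intro x y
    have h1 : y * x * y⁻¹ ∈ Subgroup.centralizer (R : Set K) ↔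
        x ∈ Subgroup.centralizer (R : Set K) := by
      have hcn : (Subgroup.centralizer (R : Set K)).Normal := inferInstance
      constructor
      · intro h
        have h2 := hcn.conj_mem _ h y⁻¹
        have h3 : y⁻¹ * (y * x * y⁻¹) * y⁻¹⁻¹ = x := by group
        rwa [h3] at h2
      · intro h
        exact hcn.conj_mem _ h y
    by_cases hx : x ∈ Subgroup.centralizer (R : Set K)
    · rw [H66.br_of_mem hx, H66.br_of_mem (h1.2 hx)]
      exact hg.1 x y
    · rw [H66.br_of_not_mem hx, H66.br_of_not_mem (fun h => hx (h1.1 h))]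
  have hh : mulF (br R g) (br R g) = br R g := by
    rw [← H66.br_mulF hF hR (H66.IsCl.inv hg.1 R) (H66.IsCl.inv hg.1 R), hg.2]
  set c : K → F := g - br R g with hc
  have hcc : IsCl c := (cfs F K).sub_mem hg.1 hcl
  have h1 : ∀ (n : ℕ) (ρ : K →* Matrix (Fin n) (Fin n) F), IsIrr ρ → ev ρ c = 0 := by
    intro n ρ hρ
    have h2 := ((H20.nls ℓ F hF K R hn hR n ρ hρ).2 g hg.1).1
    have h3 : ev ρ c = ev ρ g - ev ρ (br R g) := by
      have := Fintype.ofFinite K
      unfold ev
      rw [finsum_eq_sum_of_fintype, finsum_eq_sum_of_fintype, finsum_eq_sum_of_fintype,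
        ← Finset.sum_sub_distrib]
      refine Finset.sum_congr rfl fun t _ => ?_
      rw [hc, Pi.sub_apply, sub_smul]
    rw [h3, h2, sub_self]
  obtain ⟨k, hk⟩ := H20.ibn ℓ F hF K c h1
  have h3 : mulF c (mulF c c) = c := by
    apply ma_injective
    rw [ma_mul, ma_mul]
    have e1 : ma g * ma g = ma g := by rw [← ma_mul, hg.2]
    have e2 : ma (br R g) * ma (br R g) = ma (br R g) := by rw [← ma_mul, hh]
    have e3 : ma (br R g) * ma g = ma g * ma (br R g) :=
      (Subalgebra.mem_center_iff.1 ((isCl_iff g).1 hg.1)) (ma (br R g))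
    have e4 : ma c = ma g - ma (br R g) := by
      rw [hc]
      exact map_sub (maL : (K → F) ≃ₗ[F] MonoidAlgebra F K) g (br R g)
    rw [e4]
    have e5 : (ma g - ma (br R g)) * (ma g - ma (br R g)) =
        ma g - ma g * ma (br R g) - ma g * ma (br R g) + ma (br R g) := by
      rw [sub_mul, mul_sub, mul_sub, e1, e2, e3]
      abel
    rw [e5, sub_mul, mul_add, mul_sub, mul_sub, mul_add, mul_sub, mul_sub, ← mul_assoc,
      ← mul_assoc, e1, e2, e3, mul_assoc, e2]
    abel
  have h4 : ∀ m : ℕ, (mulF c)^[2 * m] c = c := by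
    intro m
    induction m with
    | zero => rfl
    | succ m ih =>
      rw [show 2 * (m + 1) = 2 * m + 1 + 1 from by ring, Function.iterate_succ_apply,
        Function.iterate_succ_apply, h3, ih]
  have h5 : ∀ m : ℕ, (mulF c)^[m] (0 : K → F) = 0 := by
    intro m
    induction m with
    | zero => rfl
    | succ m ih => rw [Function.iterate_succ_apply, H46.mulF_zero, ih]
  have h6 : c = 0 := by
    have h7 := h4 k
    rw [two_mul, Function.iterate_add_apply, hk, h5] at h7
    exact h7.symm
  rw [hc, sub_eq_zero] at h6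
  exact h6.symm

end supp

section main

variable {M : Ideal (integralClosure ℤ ℂ)} [hM : M.IsMaximal]

/-- an element of the support whose class sum is invertible on the block -/
theorem exists_y {X : Type} [Group X] [Finite X] {b : X → FF M} (hb : IsBlk b) :
    ∃ y, b y ≠ 0 ∧ ∃ u : X → FF M, IsCl u ∧
      mulF (mulF u (clsum (FF M) (⊤ : Subgroup X) y)) b = b := by
  have := Fintype.ofFinite (ConjClasses X)
  obtain ⟨χ, hχ, h1, -⟩ := H50.exists_irr_blk hb
  have h2 : ∃ c : ConjClasses X, b (Quotient.out c) * labF M χ (Quotient.out c) ≠ 0 := by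
    by_contra hcon
    push Not at hcon
    rw [H50.res_eq_lab, finsum_eq_sum_of_fintype, Finset.sum_eq_zero fun c _ => hcon c] at h1
    exact zero_ne_one h1
  obtain ⟨c, hc⟩ := h2
  refine ⟨Quotient.out c, left_ne_zero_of_mul hc, ?_⟩
  rcases H50.blk_dich hb (H50.isCl_clsum (F := FF M) (Quotient.out c)) with ⟨n, hn⟩ | h3
  · exfalso
    apply right_ne_zero_of_mul hc
    rw [← H50.res_clsum]
    exact H50.zero_of_nil hb.1.1 (H50.isCl_clsum _) (H50.isChar_res hχ) h1 hn
  · exact h3

/-- the `2`-subgroups on whose centraliser `b` does not vanish -/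
theorem below {X : Type} [Group X] [Finite X] (hF : GoodF 2 (FF M)) {b : X → FF M} (hb : IsCl b)
    {y : X} {u : X → FF M} (hu : IsCl u)
    (h : mulF (mulF u (clsum (FF M) (⊤ : Subgroup X) y)) b = b) {V : Subgroup X}
    (hV : IsPGroup 2 V) (hg : ∃ g ∈ Subgroup.centralizer (V : Set X), b g ≠ 0) :
    ∃ r : X, conjS r V ≤ Subgroup.centralizer ({y} : Set X) := by
  obtain ⟨g, hg, hg0⟩ := hg
  have hk := H50.isCl_clsum (F := FF M) y
  have h1 : br V b ≠ 0 := by
    intro h0
    apply hg0
    have := congrFun h0 g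
    rwa [H66.br_of_mem hg] at this
  have h2 : br V (clsum (FF M) (⊤ : Subgroup X) y) ≠ 0 := by
    intro h0
    apply h1
    rw [← h, H66.br_mulF hF hV (H66.IsCl.inv (H50.isCl_mulF hu hk) V) (H66.IsCl.inv hb V),
      H66.br_mulF hF hV (H66.IsCl.inv hu V) (H66.IsCl.inv hk V), h0, H46.mulF_zero]
    apply ma_injective
    rw [ma_mul, ma_zero, zero_mul]
  obtain ⟨z, hz⟩ : ∃ z, br V (clsum (FF M) (⊤ : Subgroup X) y) z ≠ 0 := by
    by_contra hcon
    push Not at hcon
    exact h2 (funext hcon)
  have hzV : z ∈ Subgroup.centralizer (V : Set X) := by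
    by_contra hcon
    exact hz (H66.br_of_not_mem hcon)
  rw [H66.br_of_mem hzV] at hz
  obtain ⟨r, hr⟩ : ∃ r, z = r * y * r⁻¹ := by
    by_contra hcon
    apply hz
    unfold clsum
    rw [if_neg]
    rintro ⟨q, -, hq⟩
    exact hcon ⟨q, hq⟩
  refine ⟨r⁻¹, fun v hv => ?_⟩
  rw [mem_conjS, inv_inv] at hv
  rw [Subgroup.mem_centralizer_singleton_iff]
  have h4 := Subgroup.mem_centralizer_iff.1 hzV _ hv
  rw [hr] at h4
  have h5 : r * (v * y) * r⁻¹ = r * (y * v) * r⁻¹ := by
    calc r * (v * y) * r⁻¹ = r * v * r⁻¹ * (r * y * r⁻¹) := by group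
      _ = r * y * r⁻¹ * (r * v * r⁻¹) := h4
      _ = r * (y * v) * r⁻¹ := by group
  exact mul_left_cancel (mul_right_cancel h5)

/-- the class sum of `y` in the normaliser of `V` -/
theorem br_clsum {X : Type} [Group X] [Finite X] {F : Type} [Field F] {V : Subgroup X}
    (cV : Nat.card V = 4) {y : Subgroup.normalizer (V : Set X)}
    (hy : (y : X) ∈ Subgroup.centralizer (V : Set X))
    (h8 : ¬ 8 ∣ Nat.card (Subgroup.centralizer ({(y : X)} : Set X))) :
    (fun t : Subgroup.normalizer (V : Set X) => br V (clsum F (⊤ : Subgroup X) (y : X)) t) =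
      clsum F (⊤ : Subgroup (Subgroup.normalizer (V : Set X))) y := by
  funext t
  have hconj : ∀ n : X, n ∈ Subgroup.normalizer (V : Set X) →
      n * y * n⁻¹ ∈ Subgroup.centralizer (V : Set X) := by
    intro n hn
    rw [Subgroup.mem_centralizer_iff]
    intro v hv
    have h1 : n⁻¹ * v * n ∈ V := by
      have := (Subgroup.mem_normalizer_iff.1 (inv_mem hn) v).1 hv
      rwa [inv_inv] at this
    have h2 := Subgroup.mem_centralizer_iff.1 hy _ h1
    calc v * (n * y * n⁻¹) = n * (n⁻¹ * v * n * y) * n⁻¹ := by group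
      _ = n * (y * (n⁻¹ * v * n)) * n⁻¹ := by rw [h2]
      _ = n * y * n⁻¹ * v := by group
  by_cases ht : (t : X) ∈ Subgroup.centralizer (V : Set X)
  · rw [H66.br_of_mem ht]
    have hiff : (∃ q ∈ (⊤ : Subgroup X), (t : X) = q * y * q⁻¹) ↔
        ∃ q ∈ (⊤ : Subgroup (Subgroup.normalizer (V : Set X))), t = q * y * q⁻¹ := by
      constructor
      · rintro ⟨q, -, hq⟩
        have hV1 : V ≤ Subgroup.centralizer ({(y : X)} : Set X) := by
          intro v hv
          rw [Subgroup.mem_centralizer_singleton_iff]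
          exact Subgroup.mem_centralizer_iff.1 hy v hv
        have hV2 : conjS q⁻¹ V ≤ Subgroup.centralizer ({(y : X)} : Set X) := by
          intro v hv
          rw [mem_conjS, inv_inv] at hv
          rw [Subgroup.mem_centralizer_singleton_iff]
          have h4 := Subgroup.mem_centralizer_iff.1 ht _ hv
          rw [hq] at h4
          have h5 : q * (v * y) * q⁻¹ = q * (y * v) * q⁻¹ := by
            calc q * (v * y) * q⁻¹ = q * v * q⁻¹ * (q * y * q⁻¹) := by group
              _ = q * y * q⁻¹ * (q * v * q⁻¹) := h4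
              _ = q * (y * v) * q⁻¹ := by group
          exact mul_left_cancel (mul_right_cancel h5)
        obtain ⟨c, hc, h6⟩ := conj_four h8 hV2 hV1 (by rw [card_conj4, cV]) cV
        have hn : q * c⁻¹ ∈ Subgroup.normalizer (V : Set X) := by
          rw [Subgroup.mem_normalizer_iff]
          intro v
          have h7 : ∀ w : X, w ∈ V ↔ q * (c⁻¹ * w * c) * q⁻¹ ∈ V := by
            intro w
            conv_lhs => rw [h6]
            rw [mem_conjS, mem_conjS, inv_inv]
          rw [h7 v]
          have h8 : q * (c⁻¹ * v * c) * q⁻¹ = q * c⁻¹ * v * (q * c⁻¹)⁻¹ := by group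
          rw [h8]
        refine ⟨⟨q * c⁻¹, hn⟩, Subgroup.mem_top _, Subtype.ext ?_⟩
        change (t : X) = q * c⁻¹ * y * (q * c⁻¹)⁻¹
        have h9 := Subgroup.mem_centralizer_singleton_iff.1 hc
        rw [hq]
        have h10 : c⁻¹ * (y : X) * c = y := by
          rw [mul_assoc, ← h9]
          group
        calc q * (y : X) * q⁻¹ = q * (c⁻¹ * y * c) * q⁻¹ := by rw [h10]
          _ = q * c⁻¹ * y * (q * c⁻¹)⁻¹ := by group
      · rintro ⟨q, -, hq⟩
        exact ⟨q, Subgroup.mem_top _, congrArg Subtype.val hq⟩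
    unfold clsum
    by_cases hc : ∃ q ∈ (⊤ : Subgroup X), (t : X) = q * y * q⁻¹
    · rw [if_pos hc, if_pos (hiff.1 hc)]
    · rw [if_neg hc, if_neg (fun h => hc (hiff.2 h))]
  · rw [H66.br_of_not_mem ht]
    unfold clsum
    rw [if_neg]
    rintro ⟨q, -, hq⟩
    apply ht
    rw [hq]
    exact hconj q q.2

/-- FM4 -/
theorem fm4 : Fm4Stmt := by
  intro M _ h2M X _ _ b hb
  have hF : GoodF 2 (FF M) := H50.fld 2 Nat.prime_two M h2M
  have hb8 : Bd8 b := bd8 hb.df
  obtain ⟨y, hy, u, hu, huy⟩ := exists_y hb.blk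
  refine ⟨?_, ?_⟩
  · intro V V' cV cV' hV hV'
    obtain ⟨r, hr⟩ := below hF hb.blk.1.1 hu huy (isP4 cV) hV
    obtain ⟨s, hs⟩ := below hF hb.blk.1.1 hu huy (isP4 cV') hV'
    obtain ⟨c, -, hc⟩ := conj_four (hb8 y hy) hr hs (by rw [card_conj4, cV])
      (by rw [card_conj4, cV'])
    refine ⟨s⁻¹ * (c * r), ?_⟩
    rw [← conjS_conjS, ← conjS_conjS, ← hc, conjS_conjS, inv_mul_cancel, conjS_one]
  · intro V cV hV
    have hVp := isP4 cV
    have hCN : Subgroup.centralizer (V : Set X) ≤ Subgroup.normalizer (V : Set X) := by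
      intro g hg
      rw [Subgroup.mem_normalizer_iff]
      intro v
      have h1 := Subgroup.mem_centralizer_iff.1 hg
      constructor
      · intro hv
        rw [← h1 v hv, mul_inv_cancel_right]
        exact hv
      · intro hv
        have h2 := h1 _ hv
        have h3 : g * v = g * (g * v * g⁻¹) := by
          rw [← h2]
          group
        rw [mul_left_cancel h3]
        exact hv
    have hVN : V ≤ Subgroup.normalizer (V : Set X) := Subgroup.le_normalizer
    have hB := H20.brm 2 (FF M) hF X V (Subgroup.normalizer (V : Set X)) hVp hCN le_rfl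
    set f : Subgroup.normalizer (V : Set X) → FF M := fun t => br V b t with hf
    have hfI : IsIdem f := hB.2.2 b hb.blk.1
    have hfD : DF.DfE 2 V4 f ⊤ := DF.DfE.br subCl_v4 V hb.df le_top
    obtain ⟨g₀, hg₀, hg₀'⟩ := hV
    have hf0 : f ≠ 0 := by
      intro h0
      apply hg₀'
      have h1 := congrFun h0 ⟨g₀, hCN hg₀⟩
      change br V b g₀ = 0 at h1
      rwa [H66.br_of_mem hg₀] at h1
    have hVcard : Nat.card (V.subgroupOf (Subgroup.normalizer (V : Set X))) = 4 := by
      rw [Nat.card_congr (Subgroup.subgroupOfEquivOfLe hVN).toEquiv, cV]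
    refine ⟨⟨hfI, hf0, ?_⟩, hfD, V.subgroupOf (Subgroup.normalizer (V : Set X)), hVcard,
      ⟨g₀, hCN hg₀⟩, ?_, ?_⟩
    · intro g hg
      by_contra hcon
      rw [not_or] at hcon
      obtain ⟨hc1, hc2⟩ := hcon
      set f₁ := mulF f g with hf₁
      have hf1I : IsIdem f₁ := H46.isIdem_mul hfI hg
      have hff1 : mulF f f₁ = f₁ := by
        apply ma_injective
        rw [hf₁, ma_mul, ma_mul, ← mul_assoc, H46.ma_idem hfI]
      have hf1f : mulF f₁ f = f₁ := by
        rw [H46.mulF_comm hf1I.1, hff1]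
      have hf2I : IsIdem (f - f₁) := by
        refine ⟨(cfs (FF M) _).sub_mem hfI.1 hf1I.1, ?_⟩
        apply ma_injective
        have e4 : ma (f - f₁) = ma f - ma f₁ :=
          map_sub (maL : (_ → FF M) ≃ₗ[FF M] MonoidAlgebra (FF M) _) f f₁
        rw [ma_mul, e4, sub_mul, mul_sub, mul_sub, H46.ma_idem hfI, H46.ma_idem hf1I,
          ← ma_mul, ← ma_mul, hff1, hf1f, sub_self, sub_zero]
      have hf2 : f - f₁ ≠ 0 := by
        intro h0
        exact hc1 (sub_eq_zero.1 h0).symm
      obtain ⟨ϑ₁, hϑ₁, h11⟩ := H50.exists_irr_res hf1I hc2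
      obtain ⟨ϑ₂, hϑ₂, h22⟩ := H50.exists_irr_res hf2I hf2
      have := Fintype.ofFinite (Subgroup.normalizer (V : Set X))
      have hr : ∀ ϑ ∈ Irr (Subgroup.normalizer (V : Set X)),
          res M f₁ ϑ = res M f ϑ * res M f₁ ϑ := by
        intro ϑ hϑ
        rw [← H50.res_mul hfI.1 hf1I.1 hϑ, hff1]
      have hf11 : res M f ϑ₁ = 1 := by
        have h3 := hr ϑ₁ hϑ₁
        rw [h11, mul_one] at h3
        exact h3.symm
      have h23 : res M f ϑ₂ - res M f₁ ϑ₂ = 1 := by rw [← H50.res_sub, h22]
      have hf22 : res M f ϑ₂ = 1 := by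
        rcases H50.res_idem hfI hϑ₂ with h3 | h3
        · exfalso
          have h4 := hr ϑ₂ hϑ₂
          rw [h3, zero_mul] at h4
          rw [h3, h4, sub_zero] at h23
          exact zero_ne_one h23
        · exact h3
      have h12 : res M f₁ ϑ₂ = 0 := by
        rw [hf22] at h23
        exact sub_eq_self.1 h23
      -- the central characters of `X`
      have hch : ∀ ϑ ∈ Irr (Subgroup.normalizer (V : Set X)), H50.IsChar (fun a : X → FF M =>
          res M (fun t : Subgroup.normalizer (V : Set X) => br V a t) ϑ) := by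
        intro ϑ hϑ
        refine ⟨?_, ?_, ?_⟩
        · intro a c _ _
          rw [← H50.res_sub]
          congr 1
          funext t
          by_cases ht : (t : X) ∈ Subgroup.centralizer (V : Set X)
          · rw [H66.br_of_mem ht, Pi.sub_apply, Pi.sub_apply, H66.br_of_mem ht, H66.br_of_mem ht]
          · rw [H66.br_of_not_mem ht, Pi.sub_apply, H66.br_of_not_mem ht, H66.br_of_not_mem ht,
              sub_zero]
        · intro c a _
          rw [← H50.res_smul]
          congr 1
          funext t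
          by_cases ht : (t : X) ∈ Subgroup.centralizer (V : Set X)
          · rw [H66.br_of_mem ht, Pi.smul_apply, Pi.smul_apply, H66.br_of_mem ht]
          · rw [H66.br_of_not_mem ht, Pi.smul_apply, H66.br_of_not_mem ht, smul_zero]
        · intro a c ha hc
          change res M (fun t : Subgroup.normalizer (V : Set X) => br V (mulF a c) t) ϑ = _
          rw [hB.1 a c ha hc, hB.2.1 a c]
          exact H50.res_mul (H50.br_cl le_rfl ha) (H50.br_cl le_rfl hc) hϑ
      have huniq : ∀ a : X → FF M, IsCl a →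
          res M (fun t : Subgroup.normalizer (V : Set X) => br V a t) ϑ₁ =
          res M (fun t : Subgroup.normalizer (V : Set X) => br V a t) ϑ₂ := fun a ha =>
        H50.char_uniq hb.blk (hch ϑ₁ hϑ₁) (hch ϑ₂ hϑ₂) hf11 hf22 ha
      -- the support of `f₁`
      have hn : (V.subgroupOf (Subgroup.normalizer (V : Set X))).Normal :=
        Subgroup.normal_in_normalizer
      have hbf := br_idem hF hn (isP4 hVcard) hf1I
      have hf18 : Bd8 f₁ := bd8 (DF.DfE.le hF hfI.1 hf1I.1 hff1 hfD)
      have hlab : ∀ z, f₁ z ≠ 0 → labF M ϑ₁ z = labF M ϑ₂ z := by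
        intro z hz
        have hzV : (z : X) ∈ Subgroup.centralizer (V : Set X) := by
          have h3 : z ∈ Subgroup.centralizer
              ((V.subgroupOf (Subgroup.normalizer (V : Set X)) :
                Subgroup (Subgroup.normalizer (V : Set X))) : Set _) := by
            by_contra h4
            apply hz
            rw [← hbf, H66.br_of_not_mem h4]
          rw [Subgroup.mem_centralizer_iff] at h3 ⊢
          intro v hv
          exact congrArg Subtype.val (h3 ⟨v, hVN hv⟩ hv)
        have hV1 : V ≤ Subgroup.centralizer ({(z : X)} : Set X) := by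
          intro v hv
          rw [Subgroup.mem_centralizer_singleton_iff]
          exact Subgroup.mem_centralizer_iff.1 hzV v hv
        have h8 : ¬ 8 ∣ Nat.card (Subgroup.centralizer ({(z : X)} : Set X)) :=
          fun h => hf18 z hz (eight_of_norm cV hV1 h)
        have h5 := huniq _ (H50.isCl_clsum (F := FF M) (z : X))
        rw [br_clsum cV hzV h8] at h5
        rwa [H50.res_clsum, H50.res_clsum] at h5
      have := Fintype.ofFinite (ConjClasses (Subgroup.normalizer (V : Set X)))
      have heq : res M f₁ ϑ₁ = res M f₁ ϑ₂ := by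
        rw [H50.res_eq_lab, H50.res_eq_lab, finsum_eq_sum_of_fintype, finsum_eq_sum_of_fintype]
        refine Finset.sum_congr rfl fun c _ => ?_
        by_cases hc : f₁ (Quotient.out c) = 0
        · rw [hc, zero_mul, zero_mul]
        · rw [hlab _ hc]
      rw [h11, h12] at heq
      exact one_ne_zero heq
    · rw [Subgroup.mem_centralizer_iff]
      intro v hv
      exact Subtype.ext (Subgroup.mem_centralizer_iff.1 hg₀ _ hv)
    · change br V b g₀ ≠ 0
      rw [H66.br_of_mem hg₀]
      exact hg₀'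

end main

end Pool.Agent.PP.KF.H55
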